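import Pool.Agent.H77.SF.KT

/-! The critical point. -/

open Ordinal Cardinal Order Set
open scoped ZFSet

namespace SF.H15

open SF

theorem kj : T_KJ := by
  intro κ Y hκ hYc hsm he hY
  have hlim : ∀ β < κ.ord, Order.succ β < κ.ord := fun β hβ =>
    (Cardinal.isSuccLimit_ord hκ.1.le).succ_lt hβ
  have hsub : ∀ α < κ.ord, α.toZFSet ∈ Y → α.toZFSet ⊆ Y := fun α hα h =>
    hsm _ h (by rw [card_toZFSet]; exact lt_ord.1 hα)
  have hdown : ∀ α < κ.ord, α.toZFSet ∈ Y → ∀ β < α, β.toZFSet ∈ Y := fun α hα h β hβ =>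
    hsub α hα h (toZFSet_mem_toZFSet_iff.2 hβ)
  set S : Set Ordinal.{0} := {α | ¬ (α < κ.ord ∧ α.toZFSet ∈ Y)} with hS
  have hne : S.Nonempty := ⟨κ.ord, fun h => lt_irrefl _ h.1⟩
  have hmem : sInf S ∈ S := csInf_mem hne
  have key : ∀ α : Ordinal.{0}, α < sInf S ↔ α < κ.ord ∧ α.toZFSet ∈ Y := by
    intro α
    constructor
    · intro h
      by_contra h2
      exact absurd (csInf_le' (show α ∈ S from h2)) (not_le.2 h)
    · intro h
      by_contra h2
      rw [not_lt] at h2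
      apply hmem
      rcases h2.eq_or_lt with h3 | h3
      · rw [h3]; exact h
      · exact ⟨h3.trans h.1, hdown α h.1 h.2 _ h3⟩
  have hk : sInf S < κ.ord := by
    by_contra h
    rw [not_lt] at h
    have h1 : κ.ord.toZFSet ⊆ Y := by
      intro x hx
      obtain ⟨β, hβ, rfl⟩ := mem_toZFSet_iff.1 hx
      exact ((key β).1 (hβ.trans_le h)).2
    have h2 := ZFSet.card_mono h1
    rw [card_toZFSet, card_ord] at h2
    exact absurd hYc (not_lt.2 h2)
  have h0 : (0 : Ordinal.{0}) < κ.ord := by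
    rw [lt_ord, Ordinal.card_zero]
    exact hκ.pos
  have hsucc : ∀ α < sInf S, Order.succ α < sInf S := by
    intro α hα
    obtain ⟨h1, h2⟩ := (key α).1 hα
    have h3 := (hY _ h2).2
    rw [rank_toZFSet] at h3
    exact (key _).2 ⟨hlim α h1, h3⟩
  refine ⟨sInf S, hk, ?_, key, ?_, ?_⟩
  · rw [Ordinal.isSuccLimit_iff]
    refine ⟨?_, isSuccPrelimit_of_succ_lt fun a ha => hsucc a ha⟩
    have : (0 : Ordinal.{0}) < sInf S := (key 0).2 ⟨h0, by rw [toZFSet_zero]; exact he⟩
    exact this.ne'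
  · intro x hx
    have hb : x.rank < sInf S := ZFSet.mem_vonNeumann.1 hx
    have hb2 := hsucc _ hb
    obtain ⟨h1, h2⟩ := (key _).1 hb2
    have h3 := (hY _ h2).1
    rw [rank_toZFSet] at h3
    have h4 : V_ (Order.succ x.rank) ⊆ Y := by
      refine hsm _ h3 ?_
      rw [ZFSet.card_vonNeumann]
      conv_rhs => rw [← hκ.preBeth_ord]
      exact preBeth_strictMono h1
    exact h4 (ZFSet.mem_vonNeumann_succ x)
  · intro x hx hx2
    have hr : x.rank < κ.ord := ZFSet.mem_vonNeumann.1 hx2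
    have h3 := (hY x hx).2
    have h4 : Order.succ x.rank < sInf S := (key _).2 ⟨hlim _ hr, h3⟩
    exact ZFSet.mem_vonNeumann.2 ((Order.lt_succ _).trans h4)

end SF.H15
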